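import Pool.Agent.Helper614.HE.Assembled

/-!
# The energy density is not pointwise monotone along the `C^*`-flow

There are a closed Riemann surface `X` of genus at least two, a stable `SL(3, ℂ)`-Higgs bundle
`(E, φ)` on `X`, a point `p` of `X` and numbers `0 < s₁ < s₂` such that the Higgs bundles
`(E, s₁ φ)` and `(E, s₂ φ)` have harmonic metrics and, for all harmonic metrics and every conformal
metric on `X`, the energy densities satisfy `e(f_{s₂})(p) < e(f_{s₁})(p)`.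
-/

set_option autoImplicit false

open Pool.Agent.Helper614.HE

theorem Pool.Agent.Results.MP_8bb00a_gt.NotMonotone.result :
    ∃ (X : Type) (_ : TopologicalSpace X) (_ : ChartedSpace ℂ X),
      IsClosedRiemannSurface X ∧ GenusAtLeastTwo X ∧
      ∃ E : HiggsBundle 3 X, IsStable E ∧ ∃ (p : X) (s₁ s₂ : ℝ), 0 < s₁ ∧ s₁ < s₂ ∧
        (∃ h₁, IsHarmonicMetric E s₁ h₁) ∧ (∃ h₂, IsHarmonicMetric E s₂ h₂) ∧
        ∀ h₁ h₂, IsHarmonicMetric E s₁ h₁ → IsHarmonicMetric E s₂ h₂ →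
        ∀ ρ : OpenPartialHomeomorph X ℂ → X → ℝ, IsConformalMetric X ρ →
        ∀ i, p ∈ E.U i → ∀ e ∈ atlas ℂ X, p ∈ e.source →
          energyDensity E ρ s₂ h₂ i e p < energyDensity E ρ s₁ h₁ i e p := by
  obtain ⟨X, i₁, i₂, hX, hg, E, hE, p, s₁, s₂, h1, h2, h3, h4, h5⟩ := All.final
  exact ⟨X, i₁, i₂, hX, hg, E, hE, p, s₁, s₂, h1, h2, h3, h4, h5⟩
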